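import Pool.Agent.H.MP_b57ad3_co.A

namespace Pool.Agent.Results.MP_b57ad3_co.Counter

open Pool.Agent.H.MP_b57ad3_co

/-- `p` is a diagonal of the polygon with vertices `1, …, N` -/
def Diag (N : ℕ) (p : ℕ × ℕ) : Prop := 1 ≤ p.1 ∧ p.1 + 1 < p.2 ∧ p.2 ≤ N ∧ p ≠ (1, N)

def Cross (p q : ℕ × ℕ) : Prop :=
  (p.1 < q.1 ∧ q.1 < p.2 ∧ p.2 < q.2) ∨ (q.1 < p.1 ∧ p.1 < q.2 ∧ q.2 < p.2)

/-- `ab` (with `a < b`) is a side of the polygon or a diagonal in `D` -/
def Edge (N : ℕ) (D : Finset (ℕ × ℕ)) (a b : ℕ) : Prop :=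
  (1 ≤ a ∧ b = a + 1 ∧ b ≤ N) ∨ (a, b) = (1, N) ∨ (a, b) ∈ D

/-- colourful triangulations -/
def CT (N : ℕ) (D : Finset (ℕ × ℕ)) : Prop :=
  (∀ p ∈ D, Diag N p) ∧ (∀ p ∈ D, ∀ q ∈ D, ¬ Cross p q) ∧
    (∀ p, Diag N p → (∀ q ∈ D, ¬ Cross p q) → p ∈ D) ∧
    ∀ a b c, Edge N D a b → Edge N D b c → Edge N D a c →
      a % 3 ≠ b % 3 ∧ b % 3 ≠ c % 3 ∧ a % 3 ≠ c % 3

/-- `E` arises from `D` by rotating the inner triangle of the hexagon `a b c d e f` -/
def TwAt (N : ℕ) (D E : Finset (ℕ × ℕ)) (a b c d e f : ℕ) : Prop :=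
  (Edge N D a b ∧ Edge N D b c ∧ Edge N D c d ∧ Edge N D d e ∧ Edge N D e f ∧ Edge N D a f) ∧
    (({(a, c), (c, e), (a, e)} ⊆ D ∧
        E = D \ {(a, c), (c, e), (a, e)} ∪ {(b, d), (d, f), (b, f)}) ∨
      ({(b, d), (d, f), (b, f)} ⊆ D ∧
        E = D \ {(b, d), (d, f), (b, f)} ∪ {(a, c), (c, e), (a, e)}))

/-- the twist graph -/
def H (N : ℕ) : SimpleGraph {D // CT N D} :=
  SimpleGraph.fromRel fun D E => ∃ a b c d e f, TwAt N D.1 E.1 a b c d e f

instance (N p) : Decidable (Diag N p) := by unfold Diag; infer_instance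
instance (p q) : Decidable (Cross p q) := by unfold Cross; infer_instance
instance (N D a b) : Decidable (Edge N D a b) := by unfold Edge; infer_instance
instance (N D E a b c d e f) : Decidable (TwAt N D E a b c d e f) := by
  unfold TwAt; infer_instance

def dg (a b : ℕ) : List (ℕ × ℕ) := if a + 1 < b then [(a, b)] else []

def en : ℕ → ℕ → ℕ → List (List (ℕ × ℕ))
  | 0, _, _ => []
  | f + 1, i, j => if j = i + 1 then [[]] else
      ((List.range j).filter fun k => i < k ∧ i % 3 ≠ k % 3 ∧ k % 3 ≠ j % 3 ∧ i % 3 ≠ j % 3).flatMap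
        fun k => (en f i k).flatMap fun a => (en f k j).map fun b => dg i k ++ dg k j ++ a ++ b

theorem edge_lt {N D} (hN : 1 < N) (h : ∀ p ∈ D, Diag N p) {a b} (e : Edge N D a b) :
    1 ≤ a ∧ a < b ∧ b ≤ N := by
  rcases e with e | e | e
  · omega
  · simp only [Prod.mk.injEq] at e; omega
  · have := h _ e; simp only [Diag] at this; omega

theorem enum {N D} (hN : 1 < N) (h : CT N D) (f : ℕ) : ∀ i j, Edge N D i j → j - i ≤ f →
    ∃ l ∈ en f i j, ∀ p, p ∈ l ↔ p ∈ D ∧ i ≤ p.1 ∧ p.2 ≤ j ∧ p ≠ (i, j) := by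
  classical
  obtain ⟨h1, h2, h3, h4⟩ := h
  have nc : ∀ a b, Edge N D a b → ∀ q ∈ D, ¬ Cross (a, b) q := by
    rintro a b (e | e | e) q hq
    · simp only [Cross]; omega
    · have := h1 q hq
      simp only [Cross, Diag, Prod.mk.injEq] at *
      omega
    · exact h2 _ e q hq
  induction f with
  | zero => intro i j e hf; have := edge_lt hN h1 e; omega
  | succ f ih =>
    intro i j e hf
    have lt := edge_lt hN h1 e
    by_cases c : j = i + 1
    · refine ⟨[], by simp [en, c], fun p => ⟨by simp, fun g => ?_⟩⟩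
      have := h1 p g.1
      simp only [Diag] at this
      omega
    obtain ⟨k, hk, mk⟩ := ((Finset.range j).filter (Edge N D i)).exists_max_image id
      ⟨i + 1, by simp only [Finset.mem_filter, Finset.mem_range, Edge, true_and]; omega⟩
    simp only [Finset.mem_filter, Finset.mem_range, id] at hk mk
    have l2 := edge_lt hN h1 hk.2
    have e2 : Edge N D k j := by
      by_cases g : j = k + 1
      · exact Or.inl (by omega)
      refine Or.inr (Or.inr (h3 _ (by simp only [Diag, ne_eq, Prod.mk.injEq]; omega) ?_))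
      rintro ⟨a, b⟩ hq
      have n1 := nc _ _ e _ hq
      have n2 := nc _ _ hk.2 _ hq
      have n3 : a = i → b < j → b ≤ k := fun x y => mk b ⟨y, Or.inr (Or.inr (x ▸ hq))⟩
      simp only [Cross] at *
      omega
    obtain ⟨a, ha, pa⟩ := ih i k hk.2 (by omega)
    obtain ⟨b, hb, pb⟩ := ih k j e2 (by omega)
    refine ⟨dg i k ++ dg k j ++ a ++ b, ?_, ?_⟩
    · simp only [en, if_neg c, List.mem_flatMap, List.mem_filter, List.mem_range,
        decide_eq_true_eq, List.mem_map]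
      exact ⟨k, ⟨hk.1, l2.2.1, h4 _ _ _ hk.2 e2 e⟩, a, ha, b, hb, rfl⟩
    · have d : ∀ x y, Edge N D x y → (x, y) ≠ (1, N) → ∀ p, p ∈ dg x y ↔ p ∈ D ∧ p = (x, y) := by
        intro x y e n p
        unfold dg
        split_ifs with g
        · rw [List.mem_singleton]
          refine ⟨?_, And.right⟩
          rintro rfl
          exact ⟨(e.resolve_left (by omega)).resolve_left n, rfl⟩
        · refine ⟨by simp, ?_⟩
          rintro ⟨z, rfl⟩
          exact absurd (h1 _ z).2.1 g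
      rintro ⟨x, y⟩
      simp only [List.mem_append, pa, pb, d i k hk.2 (by simp; omega), d k j e2 (by simp; omega),
        ← and_or_left, and_congr_right_iff]
      intro hq
      have n1 := nc _ _ e2 _ hq
      have n2 := nc _ _ hk.2 _ hq
      have n3 := h1 _ hq
      simp only [Cross, Diag, ne_eq, Prod.mk.injEq] at *
      omega

theorem c1 : ∀ l ∈ en 13 1 14, l ∈ LL := by decide +kernel

theorem c2 : ∀ l ∈ LL, (∀ p ∈ l.toFinset, Diag 14 p) ∧
    ∀ p ∈ l.toFinset, ∀ q ∈ l.toFinset, ¬ Cross p q := by decide +kernel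

theorem c4 : ∀ l ∈ LL, ∀ a < 15, ∀ b < 15, Diag 14 (a, b) ∧ (∀ q ∈ l.toFinset, ¬ Cross (a, b) q) →
    (a, b) ∈ l.toFinset := by decide +kernel

def tr (D : Finset (ℕ × ℕ)) (a c : ℕ) : Prop := ∀ b < c, Edge 14 D a b ∧ Edge 14 D b c →
  a % 3 ≠ b % 3 ∧ b % 3 ≠ c % 3 ∧ a % 3 ≠ c % 3

instance (D a c) : Decidable (tr D a c) := by unfold tr; infer_instance

theorem c5 : ∀ l ∈ LL, ∀ c < 15, ∀ a < c, Edge 14 l.toFinset a c → tr l.toFinset a c := by
  decide +kernel

theorem c3 : ∀ i < 140, i = 0 ∨ (par.getD i 0).1 < i ∧ TwAt 14 (LL.getD (par.getD i 0).1 []).toFinset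
    (LL.getD i []).toFinset (par.getD i 0).2.1 (par.getD i 0).2.2.1 (par.getD i 0).2.2.2.1
    (par.getD i 0).2.2.2.2.1 (par.getD i 0).2.2.2.2.2.1 (par.getD i 0).2.2.2.2.2.2 := by
  decide +kernel

theorem result : (H 14).Connected := by
  have len : LL.length = 140 := by decide +kernel
  have ct : ∀ i < 140, CT 14 (LL.getD i []).toFinset := fun i hi => by
    have m : LL.getD i [] ∈ LL := by
      rw [List.getD_eq_getElem _ _ (len ▸ hi)]; exact List.getElem_mem _
    obtain ⟨a1, a2⟩ := c2 _ m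
    refine ⟨a1, a2, fun p hp g => c4 _ m p.1 ?_ p.2 ?_ ⟨hp, g⟩, fun a b c e1 e2 e3 => ?_⟩
    · simp only [Diag] at hp; omega
    · simp only [Diag] at hp; omega
    · have := edge_lt (by omega) a1 e2
      have := edge_lt (by omega) a1 e3
      exact c5 _ m c (by omega) a (by omega) e3 b (by omega) ⟨e1, e2⟩
  have r : ∀ i (hi : i < 140), (H 14).Reachable ⟨_, ct 0 (by omega)⟩ ⟨_, ct i hi⟩ := by
    intro i
    induction i using Nat.strong_induction_on with
    | _ i ih =>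
    intro hi
    rcases c3 i hi with rfl | ⟨lt, t⟩
    · rfl
    · refine (ih _ lt (lt.trans hi)).trans ?_
      by_cases e : (⟨_, ct _ (lt.trans hi)⟩ : {D // CT 14 D}) = ⟨_, ct i hi⟩
      · rw [e]
      · exact SimpleGraph.Adj.reachable ⟨e, Or.inl ⟨_, _, _, _, _, _, t⟩⟩
  refine (SimpleGraph.connected_iff_exists_forall_reachable _).2
    ⟨⟨_, ct 0 (by omega)⟩, fun ⟨D, hD⟩ => ?_⟩
  obtain ⟨l, hl, p⟩ := enum (by omega) hD 13 1 14 (Or.inr (Or.inl rfl)) le_rfl
  obtain ⟨i, hi, e⟩ := List.getElem_of_mem (c1 l hl)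
  have : D = (LL.getD i []).toFinset := by
    ext q
    rw [List.getD_eq_getElem _ _ hi, e, List.mem_toFinset, p]
    refine ⟨fun g => ⟨g, ?_⟩, And.left⟩
    have := hD.1 q g
    exact ⟨this.1, this.2.2⟩
  subst this
  exact r i (len ▸ hi)

end Pool.Agent.Results.MP_b57ad3_co.Counter
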